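import Pool.Agent.helper68.T5.HSM

set_option autoImplicit false

/-! # T5 (MP_16912e_nt), row HDV: the divisors `b`, and the constants -/

namespace Pool.Agent.helper68.T5

open Finset NumberField Pool.Agent.helper26.T5
open Pool.Agent.helper28.LT (rad)

theorem hdv : HDV := by
  intro η ε hη hε
  have hj1 := HSM_j_pos η hη
  set j := ⌈1 / η⌉₊ with hj
  have hjr : (0 : ℝ) < j := by exact_mod_cast hj1
  obtain ⟨C₁, hC₁, hd1⟩ := Pool.Agent.helper47.RA.card_divisors_le (ε / (2 * j)) (by positivity)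
  obtain ⟨C₂, hC₂, hd2⟩ := Pool.Agent.helper47.RA.card_divisors_le (ε / (20 * j)) (by positivity)
  refine ⟨j, max ((7 : ℝ) ^ (1 / η)) (C₁ * C₂ ^ 2), ?_, ?_⟩
  · refine le_max_of_le_left ?_
    exact Real.one_le_rpow (by norm_num) (by positivity)
  intro N f hf hfN hp
  have hf1 : (1 : ℝ) < f := by exact_mod_cast hf
  have hN1 : 1 < N := by nlinarith
  have hN0 : 0 < N := by linarith
  have hfN' : (f : ℝ) ≤ N := by nlinarith
  refine ⟨?_, ?_, ?_⟩
  · intro b hb hbN hbf
    rw [Nat.dvd_iff_prime_pow_dvd_dvd]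
    intro p e hpp hd
    rcases Nat.eq_zero_or_pos e with he | he
    · rw [he, pow_zero]
      exact one_dvd _
    have hpb : p ∣ b := (dvd_pow_self p (by omega)).trans hd
    have hpf := hbf p hpp hpb
    have he2 := HSM_exp N η b p e hN1 hη hb hbN (hp p hpp hpf) hd
    exact (pow_dvd_pow p he2).trans (pow_dvd_pow_of_dvd hpf _)
  · refine le_max_of_le_left ?_
    have h1 : (N ^ η) ^ f.primeFactors.card ≤ (rad f : ℝ) := by
      unfold rad
      push_cast
      rw [← Finset.prod_const]
      refine Finset.prod_le_prod (fun _ _ => (Real.rpow_pos_of_pos hN0 _).le) fun p hp' => ?_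
      exact (hp p (Nat.prime_of_mem_primeFactors hp') (Nat.dvd_of_mem_primeFactors hp')).le
    have h2 : (rad f : ℝ) ≤ N := by
      refine le_trans ?_ hfN'
      exact_mod_cast HSM_rad_le f (by omega)
    have h3 : N ^ (η * f.primeFactors.card) ≤ N ^ (1 : ℝ) := by
      rw [Real.rpow_one, Real.rpow_mul hN0.le, Real.rpow_natCast]
      exact le_trans h1 h2
    have h4 : η * f.primeFactors.card ≤ 1 := (Real.rpow_le_rpow_left_iff hN1).1 h3
    have h5 : (f.primeFactors.card : ℝ) ≤ 1 / η := by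
      rw [le_div_iff₀ hη]
      linarith [mul_comm η (f.primeFactors.card : ℝ)]
    rw [← Real.rpow_natCast]
    exact Real.rpow_le_rpow_of_exponent_le (by norm_num) h5
  · have hf0 : 0 < f := by omega
    have e1 : ((f ^ j).divisors.card : ℝ) ≤ C₁ * N ^ (ε / 2) := by
      refine le_trans (hd1 (f ^ j) (pow_pos hf0 j)) ?_
      refine mul_le_mul_of_nonneg_left ?_ (by linarith)
      have h1 : (((f ^ j : ℕ)) : ℝ) ^ (ε / (2 * j)) = (f : ℝ) ^ (ε / 2) := by
        push_cast
        rw [← Real.rpow_natCast, ← Real.rpow_mul (by positivity)]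
        congr 1
        field_simp
      rw [h1]
      exact Real.rpow_le_rpow (by positivity) hfN' (by positivity)
    have e2 : (((f ^ j) ^ 5).divisors.card : ℝ) ≤ C₂ * N ^ (ε / 4) := by
      refine le_trans (hd2 ((f ^ j) ^ 5) (pow_pos (pow_pos hf0 j) 5)) ?_
      refine mul_le_mul_of_nonneg_left ?_ (by linarith)
      have h1 : ((((f ^ j) ^ 5 : ℕ)) : ℝ) ^ (ε / (20 * j)) = (f : ℝ) ^ (ε / 4) := by
        push_cast
        rw [← pow_mul, ← Real.rpow_natCast, ← Real.rpow_mul (by positivity)]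
        congr 1
        push_cast
        field_simp
        norm_num
      rw [h1]
      exact Real.rpow_le_rpow (by positivity) hfN' (by positivity)
    have hsplit : N ^ ε = N ^ (ε / 2) * (N ^ (ε / 4)) ^ 2 := by
      rw [← Real.rpow_natCast (N ^ (ε / 4)) 2, ← Real.rpow_mul hN0.le, ← Real.rpow_add hN0]
      congr 1
      push_cast
      ring
    calc ((f ^ j).divisors.card : ℝ) * (((f ^ j) ^ 5).divisors.card : ℝ) ^ 2
        ≤ (C₁ * N ^ (ε / 2)) * (C₂ * N ^ (ε / 4)) ^ 2 := by
          refine mul_le_mul e1 (pow_le_pow_left₀ (by positivity) e2 2) (by positivity)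
            (by positivity)
      _ = (C₁ * C₂ ^ 2) * N ^ ε := by
          rw [hsplit]
          ring
      _ ≤ max ((7 : ℝ) ^ (1 / η)) (C₁ * C₂ ^ 2) * N ^ ε :=
          mul_le_mul_of_nonneg_right (le_max_right _ _) (by positivity)

end Pool.Agent.helper68.T5
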