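import Pool.Agent.helper68.T5.HSM

set_option autoImplicit false

/-! # T5 (MP_16912e_nt), row HSD: one `f`, all discriminants -/

namespace Pool.Agent.helper68.T5

open Finset NumberField Pool.Agent.helper3.FT Pool.Agent.helper47.RA Pool.Agent.T5
open Pool.Agent.helper26.T5
open Pool.Agent.helper28.LT (rad)

theorem HSD_fld (D : ℤ) (hD : IsFund D) : Nonempty (Fld D) := by
  obtain ⟨K, i1, i2, Q, hfin, hdisc, hQD⟩ := exists_QF D hD
  exact ⟨⟨K, Q, hfin, hdisc, hQD⟩⟩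

/-- the term `2 π Y / (rad f √|D|)` -/
theorem HSD_term (N Y D : ℝ) (f r : ℕ) (hf : 1 ≤ f) (hr : 1 ≤ r) (hN : 1 ≤ N) (hY : 0 < Y)
    (hD : N / (f : ℝ) ^ 2 / 2 < -D) :
    2 * Real.pi * Y / (r * √|D|) ≤ 9 * Y * (f / r) / √N := by
  have hf0 : (0 : ℝ) < f := by exact_mod_cast hf
  have hr0 : (0 : ℝ) < r := by exact_mod_cast hr
  have hN0 : 0 < N := by linarith
  have hD0 : 0 < -D := lt_trans (by positivity) hD
  have habs : |D| = -D := abs_of_neg (by linarith)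
  rw [habs]
  have hs : √N ≤ √2 * f * √(-D) := by
    have h1 : √N ≤ √(2 * (f : ℝ) ^ 2 * (-D)) := by
      refine Real.sqrt_le_sqrt ?_
      have h2 : N < (f : ℝ) ^ 2 * 2 * (-D) := by
        have h3 : N / (f : ℝ) ^ 2 / 2 = N / ((f : ℝ) ^ 2 * 2) := by rw [div_div]
        rw [h3, div_lt_iff₀ (by positivity)] at hD
        linarith [mul_comm (-D) ((f : ℝ) ^ 2 * 2)]
      linarith [mul_comm (2 : ℝ) ((f : ℝ) ^ 2)]
    rwa [Real.sqrt_mul (by positivity), Real.sqrt_mul (by norm_num), Real.sqrt_sq hf0.le] at h1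
  have hsN : 0 < √N := Real.sqrt_pos.2 hN0
  have hsD : 0 < √(-D) := Real.sqrt_pos.2 hD0
  have h2 : √2 < 1.4143 := by
    rw [Real.sqrt_lt' (by norm_num)]
    norm_num
  have hpi : Real.pi < 3.1416 := Real.pi_lt_d4
  have hpi0 : 0 < Real.pi := Real.pi_pos
  have h22 : 0 < √2 := Real.sqrt_pos.2 (by norm_num)
  have h9 : 2 * Real.pi * √2 ≤ 9 := by nlinarith
  rw [div_le_div_iff₀ (by positivity) hsN]
  have e1 : 9 * Y * (f / r) * (r * √(-D)) = 9 * Y * f * √(-D) := by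
    field_simp
  rw [e1]
  calc 2 * Real.pi * Y * √N ≤ 2 * Real.pi * Y * (√2 * f * √(-D)) :=
        mul_le_mul_of_nonneg_left hs (by positivity)
    _ = (2 * Real.pi * √2) * (Y * f * √(-D)) := by ring
    _ ≤ 9 * (Y * f * √(-D)) := mul_le_mul_of_nonneg_right h9 (by positivity)
    _ = 9 * Y * f * √(-D) := by ring

theorem hsd (hHFD : HFD) (hHDV : HDV) (hUFT : UFT_stmt) : HSD := by
  intro η ε hη hε
  obtain ⟨j, Cd, hCd, hdv⟩ := hHDV η ε hη hε
  obtain ⟨Ct, hCt, huft⟩ := hUFT ε hε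
  refine ⟨24 * Cd ^ 3 * Ct, ?_, ?_⟩
  · have h1 : 1 ≤ Cd ^ 3 := one_le_pow₀ hCd
    nlinarith
  intro N Y X f hf hfN hY hYN hX h5 hp F hF
  have hf0 : (0 : ℝ) < f := by
    have : 0 < f := by omega
    exact_mod_cast this
  have hf1 : (1 : ℝ) < f := by exact_mod_cast hf
  have hN1 : 1 < N := by nlinarith
  have hN0 : 0 < N := by linarith
  obtain ⟨hb, h7, hτ⟩ := hdv N f hf hfN hp
  have hr1 : 1 ≤ rad f := HSM_rad_pos f
  have hfZ : ((f : ℤ) ^ 2) ≠ 0 := by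
    have : (f : ℤ) ≠ 0 := by exact_mod_cast (show f ≠ 0 by omega)
    exact pow_ne_zero _ this
  -- the discriminants
  set s : Finset ℤ := F.image (fun t => dis t / (f : ℤ) ^ 2) with hs
  have hsprop : ∀ D ∈ s, IsFund D ∧ N / (f : ℝ) ^ 2 / 2 < -(D : ℝ) ∧
      -(D : ℝ) ≤ N / (f : ℝ) ^ 2 := by
    intro D hD
    obtain ⟨t, ht, rfl⟩ := mem_image.1 hD
    obtain ⟨-, -, -, -, -, h1, h2, D₀, hD₀, hdis⟩ := hF t ht
    have hq : dis t / (f : ℤ) ^ 2 = D₀ := by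
      rw [hdis]
      exact Int.mul_ediv_cancel _ hfZ
    rw [hq]
    rw [hdis] at h1 h2
    push_cast at h1 h2
    refine ⟨hD₀, ?_, ?_⟩
    · rw [div_div, div_lt_iff₀ (by positivity)]
      linarith
    · rw [le_div_iff₀ (by positivity)]
      linarith
  have hne : ∀ D : s, Nonempty (Fld D.1) := fun D => HSD_fld D.1 (hsprop D.1 D.2).1
  choose Φ' hΦ' using fun D : s => (⟨Classical.choice (hne D), trivial⟩ : ∃ _ : Fld D.1, True)
  let Φ : ∀ D : s, Fld D.1 := Φ'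
  set uY : ℝ := 9 * Y * (f / rad f) / √N with huY
  set uX : ℝ := 9 * X * (f / rad f) / √N with huX
  have huY0 : 0 ≤ uY := by rw [huY]; positivity
  have huX0 : 0 ≤ uX := by rw [huX]; positivity
  -- one field
  have hone : ∀ D : s, ((F.filter (fun t => dis t / (f : ℤ) ^ 2 = D.1)).card : ℝ) ≤
      24 * Cd ^ 3 * N ^ ε * (1 + uY) * (1 + uX) *
        (Nat.card {x : ClassGroup (𝓞 (Φ D).K) // x ^ 5 = 1} : ℝ) := by
    intro D
    obtain ⟨hD1, hD2, hD3⟩ := hsprop D.1 D.2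
    have hDneg : (D.1 : ℝ) < 0 := by
      have : 0 < N / (f : ℝ) ^ 2 / 2 := by positivity
      linarith
    have hQD : (Φ D).Q.D = D.1 := (Φ D).hD
    have h1 := hHFD (Φ D).K (Φ D).Q f (f ^ j) Y X (Φ D).fin
      (by rw [hQD]; exact_mod_cast hDneg) (by omega)
      (fun p hpp hpf => by
        have h2 := hp p hpp hpf
        have h3 : (5 : ℝ) < p := lt_of_le_of_lt h5 h2
        exact_mod_cast h3) hY hX (Nat.one_le_pow _ _ (by omega))
      (fun b hb1 hb2 hb3 => hb b hb1 (hb2.trans hYN) hb3)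
      (F.filter (fun t => dis t / (f : ℤ) ^ 2 = D.1)) (by
        intro t ht
        rw [mem_filter] at ht
        obtain ⟨a1, a2, a3, a4, a5, -, -, D₀, -, hdis⟩ := hF t ht.1
        refine ⟨a1, a2, a3, a4, a5, ?_⟩
        rw [hQD, ← ht.2, hdis, Int.mul_ediv_cancel _ hfZ])
    rw [hQD] at h1
    refine le_trans h1 ?_
    have tY := HSD_term N Y (D.1 : ℝ) f (rad f) (by omega) hr1 hN1.le hY hD2
    have tX := HSD_term N X (D.1 : ℝ) f (rad f) (by omega) hr1 hN1.le hX hD2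
    have tY0 : 0 ≤ 2 * Real.pi * Y / (rad f * √|(D.1 : ℝ)|) := by positivity
    have tX0 : 0 ≤ 2 * Real.pi * X / (rad f * √|(D.1 : ℝ)|) := by positivity
    have h67 : (6 : ℝ) ^ f.primeFactors.card ≤ 7 ^ f.primeFactors.card :=
      pow_le_pow_left₀ (by norm_num) (by norm_num) _
    have hsix : 0 < (6 : ℝ) ^ f.primeFactors.card := by positivity
    have hseven : 1 ≤ (7 : ℝ) ^ f.primeFactors.card := one_le_pow₀ (by norm_num)
    have b1 : (6 : ℝ) ^ f.primeFactors.card * (1 + 2 * Real.pi * Y / (rad f * √|(D.1 : ℝ)|)) + 1 ≤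
        2 * Cd * (1 + uY) := by
      have c1 : (6 : ℝ) ^ f.primeFactors.card * (1 + 2 * Real.pi * Y / (rad f * √|(D.1 : ℝ)|)) ≤
          Cd * (1 + uY) :=
        mul_le_mul (h67.trans h7) (by linarith) (by positivity) (by linarith)
      have c2 : 1 ≤ Cd * (1 + uY) := by nlinarith
      linarith
    have b2 : 12 * ((7 : ℝ) ^ f.primeFactors.card *
        (1 + 2 * Real.pi * X / (rad f * √|(D.1 : ℝ)|))) ≤ 12 * (Cd * (1 + uX)) := by
      refine mul_le_mul_of_nonneg_left ?_ (by norm_num)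
      exact mul_le_mul h7 (by linarith) (by positivity) (by linarith)
    have hcl : (0 : ℝ) ≤ (Nat.card {x : ClassGroup (𝓞 (Φ D).K) // x ^ 5 = 1} : ℝ) :=
      Nat.cast_nonneg _
    have b3 : (Nat.card {x : ClassGroup (𝓞 (Φ D).K) // x ^ 5 = 1} : ℝ) *
        ((6 : ℝ) ^ f.primeFactors.card * (1 + 2 * Real.pi * Y / (rad f * √|(D.1 : ℝ)|)) + 1) ≤
        (Nat.card {x : ClassGroup (𝓞 (Φ D).K) // x ^ 5 = 1} : ℝ) * (2 * Cd * (1 + uY)) :=
      mul_le_mul_of_nonneg_left b1 hcl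
    have b4 : ((f ^ j).divisors.card : ℝ) * (((f ^ j) ^ 5).divisors.card : ℝ) ^ 2 *
        ((Nat.card {x : ClassGroup (𝓞 (Φ D).K) // x ^ 5 = 1} : ℝ) *
        ((6 : ℝ) ^ f.primeFactors.card * (1 + 2 * Real.pi * Y / (rad f * √|(D.1 : ℝ)|)) + 1)) ≤
        (Cd * N ^ ε) * ((Nat.card {x : ClassGroup (𝓞 (Φ D).K) // x ^ 5 = 1} : ℝ) *
          (2 * Cd * (1 + uY))) :=
      mul_le_mul hτ b3 (by positivity) (by positivity)
    refine le_trans (mul_le_mul b4 b2 (by positivity) (by positivity)) (le_of_eq ?_)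
    ring
  -- the sum
  have hcard : (F.card : ℝ) = ∑ D : s, ((F.filter (fun t => dis t / (f : ℤ) ^ 2 = D.1)).card : ℝ) := by
    rw [Finset.sum_coe_sort s (fun D => ((F.filter (fun t => dis t / (f : ℤ) ^ 2 = D)).card : ℝ))]
    rw [card_eq_sum_card_image (fun t => dis t / (f : ℤ) ^ 2) F]
    push_cast
    rfl
  have hNf : 1 ≤ N / (f : ℝ) ^ 2 := by
    rw [one_le_div (by positivity)]
    exact hfN
  have hsum := huft (N / (f : ℝ) ^ 2) hNf s Φ (fun D hD => (hsprop D hD).2)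
  have hpow : (N / (f : ℝ) ^ 2) ^ (1 + ε) ≤ N ^ (1 + ε) / (f : ℝ) ^ 2 := by
    rw [Real.div_rpow hN0.le (by positivity)]
    refine div_le_div_of_nonneg_left (by positivity) (by positivity) ?_
    calc (f : ℝ) ^ 2 = ((f : ℝ) ^ 2) ^ (1 : ℝ) := (Real.rpow_one _).symm
      _ ≤ ((f : ℝ) ^ 2) ^ (1 + ε) :=
        Real.rpow_le_rpow_of_exponent_le (one_le_pow₀ hf1.le) (by linarith)
  have hsplit : N ^ (1 + 2 * ε) = N ^ ε * N ^ (1 + ε) := by
    rw [← Real.rpow_add hN0]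
    congr 1
    ring
  rw [hcard]
  calc ∑ D : s, ((F.filter (fun t => dis t / (f : ℤ) ^ 2 = D.1)).card : ℝ)
      ≤ ∑ D : s, 24 * Cd ^ 3 * N ^ ε * (1 + uY) * (1 + uX) *
        (Nat.card {x : ClassGroup (𝓞 (Φ D).K) // x ^ 5 = 1} : ℝ) := sum_le_sum fun D _ => hone D
    _ = 24 * Cd ^ 3 * N ^ ε * (1 + uY) * (1 + uX) *
        ∑ D : s, (Nat.card {x : ClassGroup (𝓞 (Φ D).K) // x ^ 5 = 1} : ℝ) := by rw [mul_sum]
    _ ≤ 24 * Cd ^ 3 * N ^ ε * (1 + uY) * (1 + uX) * (Ct * (N ^ (1 + ε) / (f : ℝ) ^ 2)) := by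
        refine mul_le_mul_of_nonneg_left (le_trans hsum ?_) (by positivity)
        exact mul_le_mul_of_nonneg_left hpow (by linarith)
    _ = 24 * Cd ^ 3 * Ct * N ^ (1 + 2 * ε) / (f : ℝ) ^ 2 * (1 + uY) * (1 + uX) := by
        rw [hsplit]
        ring

end Pool.Agent.helper68.T5
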