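import Pool.Agent.helper26.T5.SpecH

set_option autoImplicit false

/-! # T5 (MP_16912e_nt), rows HSM and HDV: sums over `f`, divisors `b` -/

namespace Pool.Agent.helper68.T5

open Finset NumberField Pool.Agent.helper26.T5
open Pool.Agent.helper28.LT (rad)

/-- exponents of large primes are bounded -/
theorem HSM_exp (N η : ℝ) (b p e : ℕ) (hN : 1 < N) (hη : 0 < η) (hb : 1 ≤ b) (hbN : (b : ℝ) ≤ N)
    (hp : N ^ η < p) (hd : p ^ e ∣ b) : e ≤ ⌈1 / η⌉₊ := by
  rcases Nat.eq_zero_or_pos e with he | he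
  · omega
  have h1 : (p : ℝ) ^ e ≤ N := by
    refine le_trans ?_ hbN
    exact_mod_cast Nat.le_of_dvd (by omega) hd
  have h2 : (N ^ η) ^ e < (p : ℝ) ^ e :=
    pow_lt_pow_left₀ hp (Real.rpow_nonneg (by linarith) _) (by omega)
  have h3 : N ^ (η * e) < N ^ (1 : ℝ) := by
    rw [Real.rpow_one, Real.rpow_mul (by linarith), Real.rpow_natCast]
    linarith
  have h4 : η * e < 1 := (Real.rpow_lt_rpow_left_iff hN).1 h3
  have h5 : (e : ℝ) < 1 / η := by
    rw [lt_div_iff₀ hη]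
    linarith [mul_comm η (e : ℝ)]
  have h6 : (e : ℝ) < ⌈1 / η⌉₊ := lt_of_lt_of_le h5 (Nat.le_ceil _)
  exact_mod_cast h6.le

theorem HSM_rad_pos (f : ℕ) : 0 < rad f := by
  unfold rad
  exact Finset.prod_pos fun p hp => (Nat.prime_of_mem_primeFactors hp).pos

theorem HSM_dvd_rad (f p : ℕ) (hf : f ≠ 0) (hp : p.Prime) (hd : p ∣ f) : p ∣ rad f := by
  unfold rad
  exact Finset.dvd_prod_of_mem (fun p => p) (Nat.mem_primeFactors.2 ⟨hp, hd, hf⟩)

theorem HSM_rad_le (f : ℕ) (hf : f ≠ 0) : rad f ≤ f := by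
  unfold rad
  exact Nat.le_of_dvd (Nat.pos_of_ne_zero hf) (Nat.prod_primeFactors_dvd f)

theorem HSM_j_pos (η : ℝ) (hη : 0 < η) : 1 ≤ ⌈1 / η⌉₊ := by
  rw [Nat.one_le_ceil_iff]
  positivity

theorem HSM_dvd_pow (N η : ℝ) (f : ℕ) (hN : 1 < N) (hη : 0 < η) (hf : 1 ≤ f) (hfN : (f : ℝ) ≤ N)
    (hp : ∀ p : ℕ, p.Prime → p ∣ f → N ^ η < p) : f ∣ rad f ^ ⌈1 / η⌉₊ := by
  rw [Nat.dvd_iff_prime_pow_dvd_dvd]
  intro p e hpp hd
  rcases Nat.eq_zero_or_pos e with he | he
  · rw [he, pow_zero]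
    exact one_dvd _
  have hpf : p ∣ f := (dvd_pow_self p (by omega)).trans hd
  have he2 := HSM_exp N η f p e hN hη hf hfN (hp p hpp hpf) hd
  exact (pow_dvd_pow p he2).trans (pow_dvd_pow_of_dvd (HSM_dvd_rad f p (by omega) hpp hpf) _)

/-- the tail of the series of inverse squares -/
theorem HSM_tail (x : ℝ) (hx : 1 ≤ x) (T : Finset ℕ) (hT : ∀ r ∈ T, x < r) :
    ∑ r ∈ T, 1 / (r : ℝ) ^ 2 ≤ 2 / x := by
  set m := ⌊x⌋₊ with hm
  have hm1 : 1 ≤ m := Nat.one_le_floor_iff x |>.2 hx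
  have hmx : (m : ℝ) ≤ x := Nat.floor_le (by linarith)
  have hxm : x < (m : ℝ) + 1 := Nat.lt_floor_add_one x
  obtain ⟨M, hM⟩ := T.exists_le
  have hsub : T ⊆ Ioc m (max m M) := by
    intro r hr
    rw [mem_Ioc]
    refine ⟨?_, le_trans (hM r hr) (le_max_right _ _)⟩
    have h1 := hT r hr
    exact_mod_cast lt_of_le_of_lt hmx h1
  have h1 : ∑ r ∈ T, 1 / (r : ℝ) ^ 2 ≤ ∑ r ∈ Ioc m (max m M), ((r : ℝ) ^ 2)⁻¹ := by
    simp only [one_div]
    exact sum_le_sum_of_subset_of_nonneg hsub fun _ _ _ => by positivity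
  have h2 := sum_Ioc_inv_sq_le_sub (α := ℝ) (k := m) (n := max m M) (by omega) (le_max_left _ _)
  have h3 : (0 : ℝ) ≤ ((max m M : ℕ) : ℝ)⁻¹ := by positivity
  have h4 : ((m : ℝ))⁻¹ ≤ 2 / x := by
    have hm0 : (0 : ℝ) < m := by exact_mod_cast hm1
    have hm1' : (1 : ℝ) ≤ m := by exact_mod_cast hm1
    rw [inv_eq_one_div, div_le_div_iff₀ hm0 (by linarith)]
    linarith
  linarith

/-- grouping according to the radical -/
theorem HSM_group (j : ℕ) (s : Finset ℕ) (h : ∀ f ∈ s, f ∣ rad f ^ j) (g : ℕ → ℝ)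
    (hg : ∀ r, 0 ≤ g r) :
    ∑ f ∈ s, g (rad f) ≤ ∑ r ∈ s.image rad, ((r ^ j).divisors.card : ℝ) * g r := by
  rw [sum_comp g rad]
  refine sum_le_sum fun r hr => ?_
  rw [nsmul_eq_mul]
  refine mul_le_mul_of_nonneg_right ?_ (hg r)
  have hr0 : r ^ j ≠ 0 := by
    obtain ⟨f, -, rfl⟩ := mem_image.1 hr
    exact pow_ne_zero _ (HSM_rad_pos f).ne'
  have hsub : (s.filter fun f => rad f = r) ⊆ (r ^ j).divisors := by
    intro f hf
    rw [mem_filter] at hf
    rw [Nat.mem_divisors]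
    refine ⟨?_, hr0⟩
    have := h f hf.1
    rwa [hf.2] at this
  exact_mod_cast card_le_card hsub

theorem HSM_harm (n : ℕ) : ∑ r ∈ Icc 1 n, 1 / (r : ℝ) ≤ 1 + Real.log n := by
  have h := harmonic_le_one_add_log n
  rw [harmonic_eq_sum_Icc] at h
  push_cast at h
  simpa [one_div] using h

theorem hsm : HSM := by
  intro η ε hη hε
  have hj1 := HSM_j_pos η hη
  set j := ⌈1 / η⌉₊ with hj
  have hjr : (0 : ℝ) < j := by exact_mod_cast hj1
  obtain ⟨C₁, hC₁, hdiv⟩ := Pool.Agent.helper47.RA.card_divisors_le (ε / (2 * j)) (by positivity)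
  refine ⟨2 * C₁ * (1 + 2 / ε), ?_, ?_⟩
  · have : 0 < 2 / ε := by positivity
    nlinarith
  intro N p₀ hN hp₀ s hs
  rcases s.eq_empty_or_nonempty with hse | ⟨f₀, hf₀⟩
  · rw [hse]
    simp only [sum_empty]
    have hC0 : 0 < 2 * C₁ * (1 + 2 / ε) := by positivity
    refine ⟨by positivity, ?_, ?_⟩
    · have := Real.rpow_pos_of_pos (show 0 < N by linarith) ε
      positivity
    · have := Real.rpow_pos_of_pos (show 0 < N by linarith) (ε - η)
      positivity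
  have hN0 : 0 < N := by linarith
  -- N > 1
  have hf2 : ∀ f ∈ s, (1 : ℝ) < f := fun f hf => lt_of_le_of_lt hp₀ (hs f hf).1
  have hN1 : 1 < N := by
    have h1 := hf2 f₀ hf₀
    have h2 := (hs f₀ hf₀).2.1
    nlinarith
  have hfN : ∀ f ∈ s, (f : ℝ) ≤ N := by
    intro f hf
    have h1 := hf2 f hf
    have h2 := (hs f hf).2.1
    nlinarith
  have hf1 : ∀ f ∈ s, 1 ≤ f := by
    intro f hf
    have h1 := hf2 f hf
    exact_mod_cast h1.le
  have hdvd : ∀ f ∈ s, f ∣ rad f ^ j := fun f hf =>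
    HSM_dvd_pow N η f hN1 hη (hf1 f hf) (hfN f hf) (hs f hf).2.2
  have hradN : ∀ f ∈ s, (rad f : ℝ) ≤ N := by
    intro f hf
    refine le_trans ?_ (hfN f hf)
    exact_mod_cast HSM_rad_le f (by have := hf1 f hf; omega)
  have hradη : ∀ f ∈ s, N ^ η < (rad f : ℝ) := by
    intro f hf
    have h1 : f ≠ 1 := by
      intro h
      have := hf2 f hf
      rw [h] at this
      simp at this
    obtain ⟨p, hp, hpf⟩ := Nat.exists_prime_and_dvd h1
    have h2 := (hs f hf).2.2 p hp hpf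
    have h3 : p ≤ rad f :=
      Nat.le_of_dvd (HSM_rad_pos f) (HSM_dvd_rad f p (by have := hf1 f hf; omega) hp hpf)
    exact lt_of_lt_of_le h2 (by exact_mod_cast h3)
  have hτ : ∀ r ∈ s.image rad, ((r ^ j).divisors.card : ℝ) ≤ C₁ * N ^ (ε / 2) := by
    intro r hr
    obtain ⟨f, hf, rfl⟩ := mem_image.1 hr
    have hr0 := HSM_rad_pos f
    refine le_trans (hdiv (rad f ^ j) (pow_pos hr0 j)) ?_
    refine mul_le_mul_of_nonneg_left ?_ (by linarith)
    have h1 : (((rad f ^ j : ℕ)) : ℝ) ^ (ε / (2 * j)) = (rad f : ℝ) ^ (ε / 2) := by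
      push_cast
      rw [← Real.rpow_natCast, ← Real.rpow_mul (by positivity)]
      congr 1
      field_simp
    rw [h1]
    exact Real.rpow_le_rpow (by positivity) (hradN f hf) (by positivity)
  refine ⟨HSM_tail p₀ hp₀ s fun f hf => (hs f hf).1, ?_, ?_⟩
  · have h1 : ∑ f ∈ s, 1 / ((f : ℝ) * rad f) ≤ ∑ f ∈ s, 1 / p₀ * (1 / (rad f : ℝ)) := by
      refine sum_le_sum fun f hf => ?_
      have hr0 : (0 : ℝ) < rad f := by exact_mod_cast HSM_rad_pos f
      have hp0 : 0 < p₀ := by linarith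
      rw [one_div_mul_one_div]
      exact one_div_le_one_div_of_le (by positivity)
        (mul_le_mul_of_nonneg_right (hs f hf).1.le hr0.le)
    have h2 : ∑ f ∈ s, 1 / (rad f : ℝ) ≤ C₁ * N ^ (ε / 2) * (1 + Real.log N) := by
      refine le_trans (HSM_group j s hdvd (fun r => 1 / (r : ℝ)) fun r => by positivity) ?_
      have h3 : ∑ r ∈ s.image rad, ((r ^ j).divisors.card : ℝ) * (1 / (r : ℝ)) ≤
          ∑ r ∈ s.image rad, C₁ * N ^ (ε / 2) * (1 / (r : ℝ)) :=
        sum_le_sum fun r hr => mul_le_mul_of_nonneg_right (hτ r hr) (by positivity)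
      refine le_trans h3 ?_
      rw [← mul_sum]
      refine mul_le_mul_of_nonneg_left ?_ (by positivity)
      have h4 : s.image rad ⊆ Icc 1 ⌊N⌋₊ := by
        intro r hr
        obtain ⟨f, hf, rfl⟩ := mem_image.1 hr
        rw [mem_Icc]
        exact ⟨HSM_rad_pos f, Nat.le_floor (hradN f hf)⟩
      refine le_trans (sum_le_sum_of_subset_of_nonneg h4 fun _ _ _ => by positivity) ?_
      refine le_trans (HSM_harm _) ?_
      have h5 : (0 : ℝ) < (⌊N⌋₊ : ℝ) := by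
        have := (Nat.one_le_floor_iff N).2 hN
        exact_mod_cast this
      have h6 := Real.log_le_log h5 (Nat.floor_le hN0.le)
      linarith
    have h3 : 1 + Real.log N ≤ (1 + 2 / ε) * N ^ (ε / 2) := by
      have h4 : Real.log N ≤ N ^ (ε / 2) / (ε / 2) :=
        Real.log_le_rpow_div hN0.le (by positivity)
      have h5 : 1 ≤ N ^ (ε / 2) := Real.one_le_rpow hN (by positivity)
      have h6 : N ^ (ε / 2) / (ε / 2) = 2 / ε * N ^ (ε / 2) := by field_simp
      rw [h6] at h4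
      nlinarith
    rw [← mul_sum] at h1
    have hsplit : N ^ ε = N ^ (ε / 2) * N ^ (ε / 2) := by
      rw [← Real.rpow_add hN0]
      congr 1
      ring
    calc ∑ f ∈ s, 1 / ((f : ℝ) * rad f) ≤ 1 / p₀ * ∑ f ∈ s, 1 / (rad f : ℝ) := h1
      _ ≤ 1 / p₀ * (C₁ * N ^ (ε / 2) * ((1 + 2 / ε) * N ^ (ε / 2))) := by
          refine mul_le_mul_of_nonneg_left (le_trans h2 ?_) (by positivity)
          exact mul_le_mul_of_nonneg_left h3 (by positivity)
      _ = (C₁ * (1 + 2 / ε)) * N ^ ε / p₀ := by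
          rw [hsplit]
          ring
      _ ≤ 2 * C₁ * (1 + 2 / ε) * N ^ ε / p₀ := by
          have : 0 ≤ (C₁ * (1 + 2 / ε)) * N ^ ε := by positivity
          refine div_le_div_of_nonneg_right ?_ (by linarith)
          nlinarith
  · have h2 : ∑ f ∈ s, 1 / (rad f : ℝ) ^ 2 ≤ C₁ * N ^ (ε / 2) * (2 / N ^ η) := by
      refine le_trans (HSM_group j s hdvd (fun r => 1 / (r : ℝ) ^ 2) fun r => by positivity) ?_
      have h3 : ∑ r ∈ s.image rad, ((r ^ j).divisors.card : ℝ) * (1 / (r : ℝ) ^ 2) ≤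
          ∑ r ∈ s.image rad, C₁ * N ^ (ε / 2) * (1 / (r : ℝ) ^ 2) :=
        sum_le_sum fun r hr => mul_le_mul_of_nonneg_right (hτ r hr) (by positivity)
      refine le_trans h3 ?_
      rw [← mul_sum]
      refine mul_le_mul_of_nonneg_left ?_ (by positivity)
      refine HSM_tail (N ^ η) (Real.one_le_rpow hN hη.le) _ fun r hr => ?_
      obtain ⟨f, hf, rfl⟩ := mem_image.1 hr
      exact hradη f hf
    have hsplit : N ^ (ε - η) = N ^ (ε / 2) * N ^ (ε / 2) * (N ^ η)⁻¹ := by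
      rw [← Real.rpow_neg hN0.le, ← Real.rpow_add hN0, ← Real.rpow_add hN0]
      congr 1
      ring
    have h5 : 1 ≤ N ^ (ε / 2) := Real.one_le_rpow hN (by positivity)
    have hη0 : 0 < (N ^ η)⁻¹ := inv_pos.2 (Real.rpow_pos_of_pos hN0 _)
    refine le_trans h2 ?_
    rw [hsplit]
    have h6 : C₁ * N ^ (ε / 2) * (2 / N ^ η) = 2 * C₁ * (1 * (N ^ (ε / 2) * 1 * (N ^ η)⁻¹)) := by
      rw [div_eq_mul_inv]
      ring
    rw [h6, mul_assoc (2 * C₁)]
    refine mul_le_mul_of_nonneg_left ?_ (by positivity)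
    refine mul_le_mul ?_ ?_ (by positivity) (by positivity)
    · have : 0 < 2 / ε := by positivity
      linarith
    · refine mul_le_mul_of_nonneg_right ?_ hη0.le
      exact mul_le_mul_of_nonneg_left h5 (by positivity)

end Pool.Agent.helper68.T5
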