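import Pool.Agent.helper26.T5.SpecA

set_option autoImplicit false

/-! # T5 (MP_16912e_nt), row LA3: lattice points in a disc -/

namespace Pool.Agent.helper68.T5

open MeasureTheory Pool.Agent.helper26.T5

/-- the area of a closed disc, as a real number -/
theorem LA3_vol (r : ℝ) (hr : 0 ≤ r) :
    (volume (Metric.closedBall (0 : ℂ) r)).toReal = Real.pi * r ^ 2 := by
  rw [Complex.volume_closedBall, ENNReal.toReal_mul, ENNReal.toReal_pow,
    ENNReal.toReal_ofReal hr]
  simp [NNReal.coe_real_pi]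
  ring

theorem la3 (h1 : LA1) (h2 : LA2) : LA3 := by
  intro v e₁ e₂ d R hc hd hR
  have hd0 : 0 ≤ d := le_trans (add_nonneg (norm_nonneg _) (norm_nonneg _)) hd
  have hset : {p : ℤ × ℤ | ‖lp v e₁ e₂ p‖ ≤ R} =
      {p : ℤ × ℤ | lp v e₁ e₂ p ∈ Metric.closedBall (0 : ℂ) R} := by
    ext p
    simp [Metric.mem_closedBall, dist_zero_right]
  have hA := h1 v e₁ e₂ d (Metric.closedBall 0 R) (Metric.closedBall 0 (R + d)) hc hd
    Metric.isClosed_closedBall.measurableSet (measure_closedBall_lt_top).ne (by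
      intro z hz u hu
      rw [Metric.mem_closedBall, dist_zero_right] at hz ⊢
      exact le_trans (norm_add_le _ _) (add_le_add hz hu))
  rw [hset]
  refine ⟨hA.1, ?_, ?_⟩
  · have h := hA.2
    rw [LA3_vol (R + d) (by positivity)] at h
    exact h
  · intro hdR
    have hB := h2 v e₁ e₂ d (Metric.closedBall 0 R) (Metric.closedBall 0 (R - d)) hc hd hA.1 (by
      intro z hz u hu
      rw [Metric.mem_closedBall, dist_zero_right] at hz ⊢
      calc ‖z + u‖ ≤ ‖z‖ + ‖u‖ := norm_add_le _ _
        _ ≤ (R - d) + d := add_le_add hz hu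
        _ = R := by ring)
    rw [LA3_vol (R - d) (by linarith)] at hB
    exact hB

end Pool.Agent.helper68.T5
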