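import Pool.Agent.helper82.T5.SpecS

set_option autoImplicit false

/-! # T5 (MP_16912e_nt), row SQ1 -/

namespace Pool.Agent.T5

open Finset NumberField Pool.Agent.helper3.FT Pool.Agent.helper47.RA

/-- the equations for the two square roots -/
theorem SQ1_key {R : Type} [CommRing R] (n k m g r Z L A z l : R) (h2 : IsUnit (2 : R))
    (hZu : IsUnit Z) (hLu : IsUnit L) (hZ : Z = m ^ 2 + k * r) (hL : L = n ^ 2 * m * g + Z * k ^ 2)
    (hA : A = n ^ 2 * g * r - m * k * Z) (hP : A ^ 2 - 4 * Z ^ 2 * L = 0)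
    (hz : 2 * L * z = n ^ 2 * Z * g + L * m) (hl : 2 * Z * l = A) :
    z ^ 2 = Z ∧ l ^ 2 = L ∧ L * m = L * z - k * Z * l ∧ n ^ 2 * Z * g = L * z + k * Z * l ∧
      L * r = 2 * m * Z * l + Z ^ 2 * k := by
  have hkA : k * A = n ^ 2 * g * Z - m * L := by
    have h0 : k * r = Z - m ^ 2 := by rw [hZ]; ring
    calc k * A = n ^ 2 * g * (k * r) - m * k ^ 2 * Z := by rw [hA]; ring
      _ = n ^ 2 * g * Z - m * (n ^ 2 * m * g + Z * k ^ 2) := by rw [h0]; ring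
      _ = n ^ 2 * g * Z - m * L := by rw [← hL]
  have hE : (2 * L * z) ^ 2 = 4 * Z * L ^ 2 := by
    rw [hz]
    calc (n ^ 2 * Z * g + L * m) ^ 2
        = (n ^ 2 * g * Z - m * L) ^ 2 + 4 * Z * L * (n ^ 2 * m * g) := by ring
      _ = k ^ 2 * A ^ 2 + 4 * Z * L * (n ^ 2 * m * g) := by rw [← hkA]; ring
      _ = k ^ 2 * (A ^ 2 - 4 * Z ^ 2 * L) + 4 * Z * L * (n ^ 2 * m * g + Z * k ^ 2) := by ring
      _ = 4 * Z * L ^ 2 := by rw [hP, ← hL]; ring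
  have hz2 : z ^ 2 = Z := by
    have hu : IsUnit ((2 : R) * 2 * L ^ 2) := (h2.mul h2).mul (hLu.pow 2)
    refine hu.mul_left_cancel ?_
    calc (2 : R) * 2 * L ^ 2 * z ^ 2 = (2 * L * z) ^ 2 := by ring
      _ = 2 * 2 * L ^ 2 * Z := by rw [hE]; ring
  have hl2 : l ^ 2 = L := by
    have hu : IsUnit ((2 : R) * 2 * Z ^ 2) := (h2.mul h2).mul (hZu.pow 2)
    refine hu.mul_left_cancel ?_
    calc (2 : R) * 2 * Z ^ 2 * l ^ 2 = (2 * Z * l) ^ 2 := by ring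
      _ = (A ^ 2 - 4 * Z ^ 2 * L) + 2 * 2 * Z ^ 2 * L := by rw [hl]; ring
      _ = 2 * 2 * Z ^ 2 * L := by rw [hP]; ring
  refine ⟨hz2, hl2, ?_, ?_, ?_⟩
  · refine h2.mul_left_cancel ?_
    calc 2 * (L * m) = (n ^ 2 * Z * g + L * m) - (n ^ 2 * g * Z - m * L) := by ring
      _ = 2 * L * z - k * (2 * Z * l) := by rw [← hz, ← hkA, hl]
      _ = 2 * (L * z - k * Z * l) := by ring
  · refine h2.mul_left_cancel ?_
    calc 2 * (n ^ 2 * Z * g) = (n ^ 2 * Z * g + L * m) + (n ^ 2 * g * Z - m * L) := by ring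
      _ = 2 * L * z + k * (2 * Z * l) := by rw [← hz, ← hkA, hl]
      _ = 2 * (L * z + k * Z * l) := by ring
  · have h0 : k * r = Z - m ^ 2 := by rw [hZ]; ring
    have h1 : n ^ 2 * g * r = A + m * k * Z := by rw [hA]; ring
    calc L * r = (n ^ 2 * m * g + Z * k ^ 2) * r := by rw [← hL]
      _ = m * (n ^ 2 * g * r) + Z * k * (k * r) := by ring
      _ = m * (A + m * k * Z) + Z * k * (Z - m ^ 2) := by rw [h1, h0]
      _ = m * A + Z ^ 2 * k := by ring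
      _ = 2 * m * Z * l + Z ^ 2 * k := by rw [← hl]; ring

theorem SQ1 : SQ1_stmt := by
  intro R _ _ n k h2 hn
  let f : R × R × R → R × R := fun x =>
    ((n ^ 2 * Zp k x.1 x.2.2 * x.2.1 + Lp n k x.1 x.2.1 x.2.2 * x.1) *
      Ring.inverse (2 * Lp n k x.1 x.2.1 x.2.2),
     Ap n k x.1 x.2.1 x.2.2 * Ring.inverse (2 * Zp k x.1 x.2.2))
  have key : ∀ x : R × R × R, IsUnit (Zp k x.1 x.2.2) → IsUnit (Lp n k x.1 x.2.1 x.2.2) →
      Pp n k x.1 x.2.1 x.2.2 = 0 →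
      (f x).1 ^ 2 = Zp k x.1 x.2.2 ∧ (f x).2 ^ 2 = Lp n k x.1 x.2.1 x.2.2 ∧
      Lp n k x.1 x.2.1 x.2.2 * x.1 = Lp n k x.1 x.2.1 x.2.2 * (f x).1 -
        k * Zp k x.1 x.2.2 * (f x).2 ∧
      n ^ 2 * Zp k x.1 x.2.2 * x.2.1 = Lp n k x.1 x.2.1 x.2.2 * (f x).1 +
        k * Zp k x.1 x.2.2 * (f x).2 ∧
      Lp n k x.1 x.2.1 x.2.2 * x.2.2 = 2 * x.1 * Zp k x.1 x.2.2 * (f x).2 +
        Zp k x.1 x.2.2 ^ 2 * k := by
    rintro ⟨m, g, r⟩ hZu hLu hP
    refine SQ1_key n k m g r (Zp k m r) (Lp n k m g r) (Ap n k m g r) (f (m, g, r)).1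
      (f (m, g, r)).2 h2 hZu hLu rfl rfl rfl hP ?_ ?_
    · have hc := Ring.mul_inverse_cancel (2 * Lp n k m g r) (h2.mul hLu)
      calc 2 * Lp n k m g r * (f (m, g, r)).1
          = (n ^ 2 * Zp k m r * g + Lp n k m g r * m) *
            ((2 * Lp n k m g r) * Ring.inverse (2 * Lp n k m g r)) := by
            simp only [f]
            ring
        _ = n ^ 2 * Zp k m r * g + Lp n k m g r * m := by rw [hc, mul_one]
    · have hc := Ring.mul_inverse_cancel (2 * Zp k m r) (h2.mul hZu)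
      calc 2 * Zp k m r * (f (m, g, r)).2
          = Ap n k m g r * ((2 * Zp k m r) * Ring.inverse (2 * Zp k m r)) := by
            simp only [f]
            ring
        _ = Ap n k m g r := by rw [hc, mul_one]
  have hcard : Fintype.card R ^ 2 = (Set.univ : Set (R × R)).ncard := by
    rw [Set.ncard_univ, Nat.card_eq_fintype_card, Fintype.card_prod, pow_two]
  rw [hcard]
  refine Set.ncard_le_ncard_of_injOn f (fun _ _ => Set.mem_univ _) ?_ Set.finite_univ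
  rintro ⟨m, g, r⟩ ⟨hZ, hL, hP⟩ ⟨m', g', r'⟩ ⟨hZ', hL', hP'⟩ hf
  obtain ⟨a1, a2, a3, a4, a5⟩ := key _ hZ hL hP
  obtain ⟨b1, b2, b3, b4, b5⟩ := key _ hZ' hL' hP'
  rw [← hf] at b1 b2 b3 b4 b5
  simp only at a1 a2 a3 a4 a5 b1 b2 b3 b4 b5 hZ hL hP
  rw [← b1, ← b2] at b3 b4 b5
  rw [← a1] at a3 a4 a5 hZ
  rw [← a2] at a3 a4 a5 hL
  have e1 : m = m' := hL.mul_left_cancel (a3.trans b3.symm)
  have e2 : g = g' := ((hn.pow 2).mul hZ).mul_left_cancel (a4.trans b4.symm)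
  have e3 : r = r' := by
    rw [← e1] at b5
    exact hL.mul_left_cancel (a5.trans b5.symm)
  rw [e1, e2, e3]

end Pool.Agent.T5
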