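import Pool.Agent.helper82.T5.SpecS

set_option autoImplicit false

/-! # T5 (MP_16912e_nt), row SQ3 -/

namespace Pool.Agent.T5

open Finset NumberField Pool.Agent.helper3.FT Pool.Agent.helper47.RA

theorem SQ3_unit (N : ℕ) (a : ℤ) (h : IsCoprime a (N : ℤ)) : IsUnit ((a : ℤ) : ZMod N) := by
  obtain ⟨u, v, huv⟩ := h
  have h1 : ((u : ℤ) : ZMod N) * ((a : ℤ) : ZMod N) = 1 := by
    have h2 : (((u * a + v * (N : ℤ)) : ℤ) : ZMod N) = 1 := by rw [huv]; simp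
    push_cast at h2
    simpa using h2
  exact IsUnit.of_mul_eq_one _ (by rw [mul_comm]; exact h1)

/-- the part of one factorisation -/
theorem SQ3_part (hSQ1 : SQ1_stmt) (d₁ d₂ : ℕ) (n k : ℤ) (hodd : Odd d₂) (h1 : 1 ≤ d₁)
    (h2 : 1 ≤ d₂) (hcop : Nat.Coprime d₁ d₂) (hn : IsCoprime n (d₂ : ℤ)) (S : Finset (ℤ × ℤ × ℤ))
    (hS : ∀ x ∈ S, (0 ≤ x.1 ∧ x.1 < ((d₁ * d₂ : ℕ) : ℤ) ^ 2) ∧
      (0 ≤ x.2.1 ∧ x.2.1 < ((d₁ * d₂ : ℕ) : ℤ) ^ 2) ∧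
      (0 ≤ x.2.2 ∧ x.2.2 < ((d₁ * d₂ : ℕ) : ℤ) ^ 2) ∧ (d₁ : ℤ) ∣ x.1 ∧ (d₁ : ℤ) ∣ x.2.1 ∧
      IsCoprime (d₂ : ℤ) (Zp k x.1 x.2.2 * Lp n k x.1 x.2.1 x.2.2) ∧
      (d₂ : ℤ) ^ 2 ∣ Pp n k x.1 x.2.1 x.2.2) :
    S.card ≤ (d₁ * d₂) ^ 4 := by
  have : NeZero d₁ := ⟨by omega⟩
  have : NeZero d₂ := ⟨by omega⟩
  have : NeZero (d₁ ^ 2) := ⟨by positivity⟩
  have : NeZero (d₂ ^ 2) := ⟨by positivity⟩
  -- the set of solutions modulo the square of the second factor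
  set B : Set (ZMod (d₂ ^ 2) × ZMod (d₂ ^ 2) × ZMod (d₂ ^ 2)) :=
    {x | IsUnit (Zp (k : ZMod (d₂ ^ 2)) x.1 x.2.2) ∧
      IsUnit (Lp (n : ZMod (d₂ ^ 2)) k x.1 x.2.1 x.2.2) ∧
      Pp (n : ZMod (d₂ ^ 2)) k x.1 x.2.1 x.2.2 = 0} with hB
  have hcop2 : IsCoprime ((d₁ : ℤ) ^ 2) ((d₂ : ℤ) ^ 2) :=
    (Nat.isCoprime_iff_coprime.2 hcop).pow
  have hBcard : B.ncard ≤ (d₂ ^ 2) ^ 2 := by
    have hu2 : IsUnit (2 : ZMod (d₂ ^ 2)) := by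
      have h := SQ3_unit (d₂ ^ 2) 2 (by
        push_cast
        refine IsCoprime.pow_right ?_
        have h3 : Nat.Coprime 2 d₂ := (Nat.coprime_two_left).2 hodd
        exact_mod_cast Nat.isCoprime_iff_coprime.2 h3)
      exact_mod_cast h
    have hun : IsUnit ((n : ℤ) : ZMod (d₂ ^ 2)) :=
      SQ3_unit (d₂ ^ 2) n (by push_cast; exact hn.pow_right)
    have h := hSQ1 (ZMod (d₂ ^ 2)) (n : ZMod (d₂ ^ 2)) (k : ZMod (d₂ ^ 2)) hu2 hun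
    rw [ZMod.card] at h
    exact h
  let f : ℤ × ℤ × ℤ → (ZMod d₁ × ZMod d₁ × ZMod (d₁ ^ 2)) ×
      (ZMod (d₂ ^ 2) × ZMod (d₂ ^ 2) × ZMod (d₂ ^ 2)) := fun x =>
    ((((x.1 / (d₁ : ℤ) : ℤ) : ZMod d₁), ((x.2.1 / (d₁ : ℤ) : ℤ) : ZMod d₁),
      ((x.2.2 : ℤ) : ZMod (d₁ ^ 2))),
     (((x.1 : ℤ) : ZMod (d₂ ^ 2)), ((x.2.1 : ℤ) : ZMod (d₂ ^ 2)), ((x.2.2 : ℤ) : ZMod (d₂ ^ 2))))
  have hmaps : ∀ x ∈ (S : Set (ℤ × ℤ × ℤ)), f x ∈ (Set.univ : Set (ZMod d₁ × ZMod d₁ ×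
      ZMod (d₁ ^ 2))) ×ˢ B := by
    intro x hx
    obtain ⟨-, -, -, -, -, hc, hP⟩ := hS x (by simpa using hx)
    refine ⟨Set.mem_univ _, ?_⟩
    have hu := SQ3_unit (d₂ ^ 2) (Zp k x.1 x.2.2 * Lp n k x.1 x.2.1 x.2.2) (by
      push_cast
      exact (hc.symm).pow_right)
    rw [Int.cast_mul, IsUnit.mul_iff] at hu
    refine ⟨?_, ?_, ?_⟩
    · have h3 := hu.1
      simp only [Zp] at h3 ⊢
      push_cast at h3
      exact h3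
    · have h3 := hu.2
      simp only [Zp, Lp] at h3 ⊢
      push_cast at h3
      exact h3
    · have h3 : ((Pp n k x.1 x.2.1 x.2.2 : ℤ) : ZMod (d₂ ^ 2)) = 0 := by
        rw [ZMod.intCast_zmod_eq_zero_iff_dvd]
        push_cast
        exact hP
      simp only [Zp, Lp, Ap, Pp] at h3 ⊢
      push_cast at h3
      exact h3
  -- congruences
  have hcong : ∀ a b : ℤ, (0 ≤ a ∧ a < ((d₁ * d₂ : ℕ) : ℤ) ^ 2) → (0 ≤ b ∧ b < ((d₁ * d₂ : ℕ) : ℤ) ^ 2) →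
      (d₁ : ℤ) ^ 2 ∣ a - b → ((a : ℤ) : ZMod (d₂ ^ 2)) = ((b : ℤ) : ZMod (d₂ ^ 2)) → a = b := by
    intro a b ha hb h3 h4
    have h5 : (d₂ : ℤ) ^ 2 ∣ a - b := by
      have := (ZMod.intCast_eq_intCast_iff_dvd_sub b a (d₂ ^ 2)).1 h4.symm
      push_cast at this
      exact this
    have h6 : ((d₁ * d₂ : ℕ) : ℤ) ^ 2 ∣ a - b := by
      have := hcop2.mul_dvd h3 h5
      push_cast
      rw [mul_pow]
      exact this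
    have h7 : a - b = 0 := by
      refine Int.eq_zero_of_abs_lt_dvd h6 ?_
      rw [abs_lt]
      constructor <;> linarith [ha.1, ha.2, hb.1, hb.2]
    linarith
  have hdiv : ∀ a b : ℤ, (d₁ : ℤ) ∣ a → (d₁ : ℤ) ∣ b →
      ((a / (d₁ : ℤ) : ℤ) : ZMod d₁) = ((b / (d₁ : ℤ) : ℤ) : ZMod d₁) → (d₁ : ℤ) ^ 2 ∣ a - b := by
    intro a b ha hb h3
    obtain ⟨a', rfl⟩ := ha
    obtain ⟨b', rfl⟩ := hb
    have hd0 : (d₁ : ℤ) ≠ 0 := by exact_mod_cast (NeZero.ne d₁)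
    rw [Int.mul_ediv_cancel_left _ hd0, Int.mul_ediv_cancel_left _ hd0] at h3
    have h4 := (ZMod.intCast_eq_intCast_iff_dvd_sub b' a' d₁).1 h3.symm
    obtain ⟨e, he⟩ := h4
    refine ⟨e, ?_⟩
    rw [← mul_sub, he]
    ring
  have hinj : Set.InjOn f (S : Set (ℤ × ℤ × ℤ)) := by
    intro x hx y hy hxy
    obtain ⟨x1, x2, x3, x4, x5, -, -⟩ := hS x (by simpa using hx)
    obtain ⟨y1, y2, y3, y4, y5, -, -⟩ := hS y (by simpa using hy)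
    simp only [f, Prod.mk.injEq] at hxy
    obtain ⟨⟨q1, q2, q3⟩, q4, q5, q6⟩ := hxy
    have e1 := hcong _ _ x1 y1 (hdiv _ _ x4 y4 q1) q4
    have e2 := hcong _ _ x2 y2 (hdiv _ _ x5 y5 q2) q5
    have e3 := hcong _ _ x3 y3 (by
      have := (ZMod.intCast_eq_intCast_iff_dvd_sub y.2.2 x.2.2 (d₁ ^ 2)).1 q3.symm
      push_cast at this
      exact this) q6
    exact Prod.ext e1 (Prod.ext e2 e3)
  have hle := Set.ncard_le_ncard_of_injOn f hmaps hinj (Set.toFinite _)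
  rw [Set.ncard_coe_finset, Set.ncard_prod, Set.ncard_univ] at hle
  have hc1 : Nat.card (ZMod d₁ × ZMod d₁ × ZMod (d₁ ^ 2)) = d₁ ^ 4 := by
    rw [Nat.card_prod, Nat.card_prod, Nat.card_zmod, Nat.card_zmod]
    ring
  rw [hc1] at hle
  calc S.card ≤ d₁ ^ 4 * B.ncard := hle
    _ ≤ d₁ ^ 4 * (d₂ ^ 2) ^ 2 := Nat.mul_le_mul_left _ hBcard
    _ = (d₁ * d₂) ^ 4 := by ring

open Classical in
theorem SQ3 (hSQ1 : SQ1_stmt) : SQ3_stmt := by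
  intro d n k hd hd1 hn S hS
  have hsub : S ⊆ d.divisors.biUnion (fun d₁ => S.filter (fun x =>
      Nat.Coprime d₁ (d / d₁) ∧ (d₁ : ℤ) ∣ x.1 ∧ (d₁ : ℤ) ∣ x.2.1 ∧
      IsCoprime ((d / d₁ : ℕ) : ℤ) (Zp k x.1 x.2.2 * Lp n k x.1 x.2.1 x.2.2) ∧
      ((d / d₁ : ℕ) : ℤ) ^ 2 ∣ Pp n k x.1 x.2.1 x.2.2)) := by
    intro x hx
    obtain ⟨-, -, -, d₁, d₂, hdd, hc, h1, h2, h3, h4⟩ := hS x hx
    have hd10 : 0 < d₁ := by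
      rcases Nat.eq_zero_or_pos d₁ with h | h
      · rw [h, zero_mul] at hdd
        omega
      · exact h
    have hquot : d / d₁ = d₂ := by
      rw [hdd]
      exact Nat.mul_div_cancel_left _ hd10
    rw [mem_biUnion]
    refine ⟨d₁, Nat.mem_divisors.2 ⟨⟨d₂, hdd⟩, by omega⟩, mem_filter.2 ⟨hx, ?_⟩⟩
    rw [hquot]
    exact ⟨hc, h1, h2, h3, h4⟩
  refine le_trans (card_le_card hsub) (card_biUnion_le_card_mul _ _ _ fun d₁ hd₁ => ?_)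
  rcases (S.filter (fun x =>
      Nat.Coprime d₁ (d / d₁) ∧ (d₁ : ℤ) ∣ x.1 ∧ (d₁ : ℤ) ∣ x.2.1 ∧
      IsCoprime ((d / d₁ : ℕ) : ℤ) (Zp k x.1 x.2.2 * Lp n k x.1 x.2.1 x.2.2) ∧
      ((d / d₁ : ℕ) : ℤ) ^ 2 ∣ Pp n k x.1 x.2.1 x.2.2)).eq_empty_or_nonempty with hE | ⟨y, hy⟩
  · rw [hE]
    simp
  · have hcop := (mem_filter.1 hy).2.1
    have hdvd := Nat.dvd_of_mem_divisors hd₁
    have hmul : d₁ * (d / d₁) = d := Nat.mul_div_cancel' hdvd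
    have h1 : 1 ≤ d₁ := Nat.pos_of_dvd_of_pos hdvd (by omega)
    have h2 : 1 ≤ d / d₁ := Nat.div_pos (Nat.le_of_dvd (by omega) hdvd) h1
    have hodd : Odd (d / d₁) := hd.of_dvd_nat (Nat.div_dvd_of_dvd hdvd)
    have hn2 : IsCoprime n ((d / d₁ : ℕ) : ℤ) := by
      refine hn.of_isCoprime_of_dvd_right ?_
      exact_mod_cast Nat.div_dvd_of_dvd hdvd
    have := SQ3_part hSQ1 d₁ (d / d₁) n k hodd h1 h2 hcop hn2 (S.filter (fun x =>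
      Nat.Coprime d₁ (d / d₁) ∧ (d₁ : ℤ) ∣ x.1 ∧ (d₁ : ℤ) ∣ x.2.1 ∧
      IsCoprime ((d / d₁ : ℕ) : ℤ) (Zp k x.1 x.2.2 * Lp n k x.1 x.2.1 x.2.2) ∧
      ((d / d₁ : ℕ) : ℤ) ^ 2 ∣ Pp n k x.1 x.2.1 x.2.2)) (by
        intro x hx
        rw [mem_filter] at hx
        obtain ⟨hxS, -, a1, a2, a3, a4⟩ := hx
        obtain ⟨b1, b2, b3, -⟩ := hS x hxS
        rw [hmul]
        exact ⟨b1, b2, b3, a1, a2, a3, a4⟩)
    rw [hmul] at this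
    exact this

end Pool.Agent.T5
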