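import Pool.Agent.helper94.T5.SpecV

set_option autoImplicit false

/-! # T5 (MP_16912e_nt), row VE2: the two dimensional change of variables -/

namespace Pool.Agent.T5V

open MeasureTheory Set
open scoped ENNReal

/-- the map -/
noncomputable def VE2_f (x : ℝ × ℝ) : ℝ × ℝ :=
  (Real.sin x.2 / Real.sin x.1, Real.sin (x.1 - x.2) / Real.sin x.1)

/-- its derivative -/
noncomputable def VE2_d (p : ℝ × ℝ) : ℝ × ℝ →L[ℝ] ℝ × ℝ :=
  LinearMap.toContinuousLinearMap (Matrix.toLin (Module.Basis.finTwoProd ℝ)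
    (Module.Basis.finTwoProd ℝ)
    !![-(Real.sin p.2 * Real.cos p.1 / Real.sin p.1 ^ 2), Real.cos p.2 / Real.sin p.1;
       Real.sin p.2 / Real.sin p.1 ^ 2, -(Real.cos (p.1 - p.2) / Real.sin p.1)])

theorem VE2_hasFDerivAt (p : ℝ × ℝ) (hp : Real.sin p.1 ≠ 0) : HasFDerivAt VE2_f (VE2_d p) p := by
  have h1 : HasFDerivAt (fun x : ℝ × ℝ => Real.sin x.1)
      (Real.cos p.1 • ContinuousLinearMap.fst ℝ ℝ ℝ) p :=
    (Real.hasDerivAt_sin p.1).comp_hasFDerivAt p hasFDerivAt_fst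
  have h2 : HasFDerivAt (fun x : ℝ × ℝ => Real.sin x.2)
      (Real.cos p.2 • ContinuousLinearMap.snd ℝ ℝ ℝ) p :=
    (Real.hasDerivAt_sin p.2).comp_hasFDerivAt p hasFDerivAt_snd
  have hsub : HasFDerivAt (fun x : ℝ × ℝ => x.1 - x.2)
      (ContinuousLinearMap.fst ℝ ℝ ℝ - ContinuousLinearMap.snd ℝ ℝ ℝ) p :=
    (ContinuousLinearMap.fst ℝ ℝ ℝ - ContinuousLinearMap.snd ℝ ℝ ℝ).hasFDerivAt
  have h3 : HasFDerivAt (fun x : ℝ × ℝ => Real.sin (x.1 - x.2))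
      (Real.cos (p.1 - p.2) • (ContinuousLinearMap.fst ℝ ℝ ℝ - ContinuousLinearMap.snd ℝ ℝ ℝ)) p :=
    HasDerivAt.comp_hasFDerivAt (h₂ := Real.sin) (f := fun x : ℝ × ℝ => x.1 - x.2) p
      (Real.hasDerivAt_sin (p.1 - p.2)) hsub
  have hi : HasFDerivAt (fun x : ℝ × ℝ => (Real.sin x.1)⁻¹)
      ((-(Real.sin p.1 ^ 2)⁻¹) • (Real.cos p.1 • ContinuousLinearMap.fst ℝ ℝ ℝ)) p :=
    (hasDerivAt_inv hp).comp_hasFDerivAt p h1
  have hu := h2.mul hi
  have hv := h3.mul hi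
  unfold VE2_d
  rw [Matrix.toLin_finTwoProd_toContinuousLinearMap]
  have hf : VE2_f = fun x : ℝ × ℝ => (Real.sin x.2 * (Real.sin x.1)⁻¹,
      Real.sin (x.1 - x.2) * (Real.sin x.1)⁻¹) := by
    funext x
    simp [VE2_f, div_eq_mul_inv]
  rw [hf]
  refine (HasFDerivAt.prodMk hu hv).congr_fderiv ?_
  have key : Real.sin p.2 = Real.sin p.1 * Real.cos (p.1 - p.2) -
      Real.cos p.1 * Real.sin (p.1 - p.2) := by
    have : p.2 = p.1 - (p.1 - p.2) := by ring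
    conv_lhs => rw [this, Real.sin_sub]
  refine ContinuousLinearMap.ext fun w => ?_
  refine Prod.ext ?_ ?_
  · simp only [ContinuousLinearMap.prod_apply, add_apply,
      smul_apply, ContinuousLinearMap.coe_fst', ContinuousLinearMap.coe_snd',
      smul_eq_mul]
    field_simp
  · simp only [ContinuousLinearMap.prod_apply, add_apply,
      smul_apply, ContinuousLinearMap.coe_fst', ContinuousLinearMap.coe_snd',
      sub_apply, smul_eq_mul]
    rw [key]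
    field_simp
    ring

theorem VE2_det (p : ℝ × ℝ) (hp : Real.sin p.1 ≠ 0) :
    (VE2_d p).det = -((Real.sin p.2 / Real.sin p.1) * (Real.sin (p.1 - p.2) / Real.sin p.1)) := by
  have key : Real.cos p.2 = Real.cos p.1 * Real.cos (p.1 - p.2) +
      Real.sin p.1 * Real.sin (p.1 - p.2) := by
    have : p.2 = p.1 - (p.1 - p.2) := by ring
    conv_lhs => rw [this, Real.cos_sub]
  unfold VE2_d
  simp only [LinearMap.det_toContinuousLinearMap, LinearMap.det_toLin, Matrix.det_fin_two_of]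
  rw [key]
  field_simp
  ring

/-- the integrand on the left -/
noncomputable def VE2_F (Ψ : ℝ → ℝ → ℝ≥0∞) (y : ℝ × ℝ) : ℝ≥0∞ :=
  (if 0 < Sg y.1 y.2 then Ψ (√(Sg y.1 y.2)) (y.1 * √(Sg y.1 y.2)) else 0) *
    ENNReal.ofReal (1 / (y.1 * |y.2|))

theorem VE2_Sg_meas : Measurable (fun y : ℝ × ℝ => Sg y.1 y.2) := by
  unfold Sg
  fun_prop

theorem VE2_F_meas (Ψ : ℝ → ℝ → ℝ≥0∞) (h : Measurable (fun x : ℝ × ℝ => Ψ x.1 x.2)) :
    Measurable (VE2_F Ψ) := by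
  unfold VE2_F
  have hS := VE2_Sg_meas
  refine Measurable.mul (Measurable.ite (measurableSet_lt measurable_const hS) ?_
    measurable_const) (by fun_prop)
  exact h.comp ((hS.sqrt).prodMk (measurable_fst.mul hS.sqrt))

/-- the diagonal is a null set -/
theorem VE2_diag : (volume : Measure (ℝ × ℝ)) {x : ℝ × ℝ | x.1 = x.2} = 0 := by
  have hm : MeasurableSet {x : ℝ × ℝ | x.1 = x.2} :=
    measurableSet_eq_fun measurable_fst measurable_snd
  rw [Measure.volume_eq_prod, Measure.measure_prod_null hm]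
  refine Filter.Eventually.of_forall fun x => ?_
  have : Prod.mk x ⁻¹' {x : ℝ × ℝ | x.1 = x.2} = {x} := by
    ext y
    simp [eq_comm]
  simp [this]

theorem VE2 (hVGM : VGM_stmt) : VE2_stmt := by
  intro Ψ hΨ
  obtain ⟨hinj, himg, hval⟩ := hVGM
  have hFm := VE2_F_meas Ψ hΨ
  have hEm : MeasurableSet {y : ℝ × ℝ | 0 < y.1 ∧ y.2 ≠ 0 ∧ 0 < Sg y.1 y.2} := by
    refine (measurableSet_lt measurable_const measurable_fst).inter
      (MeasurableSet.inter ?_ (measurableSet_lt measurable_const VE2_Sg_meas))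
    exact (measurableSet_eq_fun measurable_snd measurable_const).compl
  have hDm : MeasurableSet ((Ioo 0 Real.pi ×ˢ Ioo 0 Real.pi) ∩ {x : ℝ × ℝ | x.1 ≠ x.2}) :=
    (measurableSet_Ioo.prod measurableSet_Ioo).inter
      (measurableSet_eq_fun measurable_fst measurable_snd).compl
  -- the left side
  have hL : ∫⁻ U in Ioi (0 : ℝ), ∫⁻ v, (if 0 < Sg U v then Ψ (√(Sg U v)) (U * √(Sg U v)) else 0) *
      ENNReal.ofReal (1 / (U * |v|)) =
      ∫⁻ y in {y : ℝ × ℝ | 0 < y.1 ∧ y.2 ≠ 0 ∧ 0 < Sg y.1 y.2}, VE2_F Ψ y := by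
    have h1 : ∫⁻ y in (Ioi (0 : ℝ)) ×ˢ (univ : Set ℝ), VE2_F Ψ y =
        ∫⁻ U in Ioi (0 : ℝ), ∫⁻ v, VE2_F Ψ (U, v) := by
      rw [Measure.volume_eq_prod, ← Measure.prod_restrict, Measure.restrict_univ,
        lintegral_prod _ hFm.aemeasurable]
    have h2 : ∫⁻ y in (Ioi (0 : ℝ)) ×ˢ (univ : Set ℝ), VE2_F Ψ y =
        ∫⁻ y in {y : ℝ × ℝ | 0 < y.1 ∧ y.2 ≠ 0 ∧ 0 < Sg y.1 y.2}, VE2_F Ψ y := by
      rw [← lintegral_indicator (measurableSet_Ioi.prod MeasurableSet.univ),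
        ← lintegral_indicator hEm]
      refine lintegral_congr fun y => ?_
      by_cases hy : y ∈ {y : ℝ × ℝ | 0 < y.1 ∧ y.2 ≠ 0 ∧ 0 < Sg y.1 y.2}
      · rw [indicator_of_mem hy, indicator_of_mem]
        exact ⟨hy.1, mem_univ _⟩
      · rw [indicator_of_notMem hy]
        by_cases hy2 : y ∈ (Ioi (0 : ℝ)) ×ˢ (univ : Set ℝ)
        · rw [indicator_of_mem hy2]
          unfold VE2_F
          by_cases h0 : y.2 = 0
          · simp [h0]
          · by_cases hS : 0 < Sg y.1 y.2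
            · exact absurd ⟨hy2.1, h0, hS⟩ hy
            · simp [hS]
        · rw [indicator_of_notMem hy2]
    rw [← h2, h1]
    rfl
  -- the right side
  have hR : ∫⁻ φ in Ioo 0 Real.pi, ∫⁻ ψ in Ioo 0 Real.pi, Ψ (Real.sin φ) (Real.sin ψ) =
      ∫⁻ x in (Ioo 0 Real.pi ×ˢ Ioo 0 Real.pi) ∩ {x : ℝ × ℝ | x.1 ≠ x.2},
        Ψ (Real.sin x.1) (Real.sin x.2) := by
    have hm : Measurable (fun x : ℝ × ℝ => Ψ (Real.sin x.1) (Real.sin x.2)) :=
      hΨ.comp ((Real.measurable_sin.comp measurable_fst).prodMk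
        (Real.measurable_sin.comp measurable_snd))
    have h1 : ∫⁻ x in (Ioo 0 Real.pi ×ˢ Ioo 0 Real.pi), Ψ (Real.sin x.1) (Real.sin x.2) =
        ∫⁻ φ in Ioo 0 Real.pi, ∫⁻ ψ in Ioo 0 Real.pi, Ψ (Real.sin φ) (Real.sin ψ) := by
      rw [Measure.volume_eq_prod, ← Measure.prod_restrict, lintegral_prod _ hm.aemeasurable]
    rw [← h1]
    refine setLIntegral_congr ?_
    refine Filter.EventuallyEq.symm ?_
    have hd : {x : ℝ × ℝ | x.1 ≠ x.2} =ᵐ[volume] (univ : Set (ℝ × ℝ)) := by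
      rw [Filter.eventuallyEq_univ, mem_ae_iff]
      have : ({x : ℝ × ℝ | x.1 ≠ x.2})ᶜ = {x : ℝ × ℝ | x.1 = x.2} := by
        ext x
        simp
      rw [this]
      exact VE2_diag
    have := (Filter.EventuallyEq.refl (ae (volume : Measure (ℝ × ℝ)))
      (Ioo 0 Real.pi ×ˢ Ioo 0 Real.pi : Set (ℝ × ℝ))).inter hd
    rw [inter_univ] at this
    exact this
  rw [hL, hR, ← himg]
  have hch := lintegral_image_eq_lintegral_abs_det_fderiv_mul (volume : Measure (ℝ × ℝ)) hDm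
    (f := VE2_f) (f' := VE2_d) (fun x hx => by
      refine (VE2_hasFDerivAt x ?_).hasFDerivWithinAt
      exact (Real.sin_pos_of_pos_of_lt_pi hx.1.1.1 hx.1.1.2).ne') hinj (VE2_F Ψ)
  refine Eq.trans hch ?_
  refine setLIntegral_congr_fun hDm fun x hx => ?_
  have hs1 : 0 < Real.sin x.1 := Real.sin_pos_of_pos_of_lt_pi hx.1.1.1 hx.1.1.2
  have hs2 : 0 < Real.sin x.2 := Real.sin_pos_of_pos_of_lt_pi hx.1.2.1 hx.1.2.2
  have hmem : VE2_f x ∈ {y : ℝ × ℝ | 0 < y.1 ∧ y.2 ≠ 0 ∧ 0 < Sg y.1 y.2} := by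
    rw [← himg]
    exact ⟨x, hx, rfl⟩
  obtain ⟨hU, hv, hS⟩ := hmem
  obtain ⟨e1, e2⟩ := hval x.1 hx.1.1 x.2 hx.1.2 hx.2
  have hF : VE2_F Ψ (VE2_f x) = Ψ (Real.sin x.1) (Real.sin x.2) *
      ENNReal.ofReal (1 / ((VE2_f x).1 * |(VE2_f x).2|)) := by
    unfold VE2_F
    rw [if_pos hS]
    have e1' : √(Sg (VE2_f x).1 (VE2_f x).2) = Real.sin x.1 := e1
    have e2' : (VE2_f x).1 * √(Sg (VE2_f x).1 (VE2_f x).2) = Real.sin x.2 := e2
    rw [e2', e1']
  show ENNReal.ofReal |(VE2_d x).det| * VE2_F Ψ (VE2_f x) = Ψ (Real.sin x.1) (Real.sin x.2)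
  rw [hF, VE2_det x hs1.ne']
  have hdet : |-((Real.sin x.2 / Real.sin x.1) * (Real.sin (x.1 - x.2) / Real.sin x.1))| =
      (VE2_f x).1 * |(VE2_f x).2| := by
    rw [abs_neg, abs_mul]
    rw [abs_of_pos (show 0 < Real.sin x.2 / Real.sin x.1 from div_pos hs2 hs1)]
    rfl
  rw [hdet]
  have hpos : 0 < (VE2_f x).1 * |(VE2_f x).2| := mul_pos hU (abs_pos.2 hv)
  rw [mul_comm, mul_assoc, ← ENNReal.ofReal_mul (by positivity), one_div,
    inv_mul_cancel₀ hpos.ne', ENNReal.ofReal_one, mul_one]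

end Pool.Agent.T5V
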