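import Pool.Agent.helper8.T5.SpecU

set_option autoImplicit false

/-! # T5 (MP_16912e_nt), row UBC -/

namespace Pool.Agent.T5

open Finset NumberField Pool.Agent.helper3.FT Pool.Agent.helper47.RA

theorem UBC (hBC : BC_stmt) : BCU_stmt := by
  intro δ hδ hδ1
  obtain ⟨c, hc, h⟩ := hBC δ hδ hδ1
  refine ⟨c, hc, fun ε hε => ?_⟩
  obtain ⟨C, hC, hB⟩ := h (ε / 2) (by positivity)
  have hl2 : 0 < Real.log 2 := Real.log_pos (by norm_num)
  have hK : 2 ≤ 2 + 2 / (ε * Real.log 2) := by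
    have : 0 < 2 / (ε * Real.log 2) := by positivity
    linarith
  refine ⟨C * (2 + 2 / (ε * Real.log 2)), by nlinarith, ?_⟩
  intro N Q₁ Q₂ hN hQ1 hQ1' hQ2 hQ2' F hF
  have hN0 : 0 < N := by linarith
  have hNe : 1 ≤ N ^ (ε / 2) := Real.one_le_rpow hN (by positivity)
  have hQ10 : 0 < Q₁ := lt_of_lt_of_le (Real.rpow_pos_of_pos hN0 _) hQ1
  have hQ20 : 0 < Q₂ := by linarith
  have hQN : Q₂ ≤ N := by
    refine le_trans hQ2' ?_
    calc N ^ (1 / 2 + δ / 100) ≤ N ^ (1 : ℝ) :=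
          Real.rpow_le_rpow_of_exponent_le hN (by linarith)
      _ = N := Real.rpow_one N
  obtain ⟨J, hJ1, hJ2⟩ := exists_nat_pow_near hQ2 (one_lt_two : (1 : ℝ) < 2)
  -- the bound for J
  have hJ : (J : ℝ) + 1 ≤ (2 + 2 / (ε * Real.log 2)) * N ^ (ε / 2) := by
    have h1 : (J : ℝ) * Real.log 2 ≤ Real.log N := by
      rw [← Real.log_pow]
      exact Real.log_le_log (by positivity) (le_trans hJ1 hQN)
    have h2 : Real.log N ≤ N ^ (ε / 2) / (ε / 2) :=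
      Real.log_le_rpow_div hN0.le (by positivity)
    have h3 : (J : ℝ) ≤ 2 / (ε * Real.log 2) * N ^ (ε / 2) := by
      have h4 : (J : ℝ) ≤ (N ^ (ε / 2) / (ε / 2)) / Real.log 2 := by
        rw [le_div_iff₀ hl2]
        exact le_trans h1 h2
      refine le_trans h4 (le_of_eq ?_)
      field_simp
    nlinarith
  -- the decomposition
  have hsub : F ⊆ (range (J + 1)).biUnion (fun j => F.filter (fun t =>
      Q₂ / 2 ^ j / 2 < lam t ∧ (lam t : ℝ) ≤ Q₂ / 2 ^ j)) := by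
    intro t ht
    obtain ⟨-, -, -, h4, h5, -⟩ := hF t ht
    have hl1 : (1 : ℝ) ≤ (lam t : ℝ) := by exact_mod_cast h4
    have hl0 : (0 : ℝ) < (lam t : ℝ) := by linarith
    obtain ⟨j, hj1, hj2⟩ := exists_nat_pow_near ((one_le_div hl0).2 h5)
      (one_lt_two : (1 : ℝ) < 2)
    have hjJ : j < J + 1 := by
      have : (2 : ℝ) ^ j < 2 ^ (J + 1) := by
        refine lt_of_le_of_lt hj1 (lt_of_le_of_lt ?_ hJ2)
        rw [div_le_iff₀ hl0]
        nlinarith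
      exact (pow_lt_pow_iff_right₀ (one_lt_two : (1 : ℝ) < 2)).1 this
    rw [mem_biUnion]
    refine ⟨j, mem_range.2 hjJ, mem_filter.2 ⟨ht, ?_, ?_⟩⟩
    · rw [div_div, ← pow_succ, div_lt_iff₀ (by positivity)]
      rw [div_lt_iff₀ hl0] at hj2
      linarith [mul_comm (lam t : ℝ) ((2 : ℝ) ^ (j + 1))]
    · rw [le_div_iff₀ (by positivity)]
      rw [le_div_iff₀ hl0] at hj1
      linarith [mul_comm (lam t : ℝ) ((2 : ℝ) ^ j)]
  have hcard : (F.card : ℝ) ≤ ∑ j ∈ range (J + 1),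
      (C * N ^ (ε / 2) * (Q₁ * (Q₂ / 2 ^ j) + Q₁ * N ^ (1 / 2 - c))) := by
    have h1 : (F.card : ℝ) ≤ ∑ j ∈ range (J + 1), ((F.filter (fun t =>
        Q₂ / 2 ^ j / 2 < lam t ∧ (lam t : ℝ) ≤ Q₂ / 2 ^ j)).card : ℝ) := by
      exact_mod_cast le_trans (card_le_card hsub) card_biUnion_le
    refine le_trans h1 (sum_le_sum fun j hj => ?_)
    have h2j : (2 : ℝ) ^ j ≤ Q₂ := by
      refine le_trans ?_ hJ1
      exact pow_le_pow_right₀ (by norm_num) (by have := mem_range.1 hj; omega)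
    refine hB N Q₁ (Q₂ / 2 ^ j) hN hQ1 hQ1' ?_ ?_ _ ?_
    · rw [one_le_div (by positivity)]
      exact h2j
    · refine le_trans ?_ hQ2'
      exact div_le_self hQ20.le (one_le_pow₀ (by norm_num))
    · intro t ht
      rw [mem_filter] at ht
      obtain ⟨a1, a2, a3, a4, a5, a6⟩ := hF t ht.1
      exact ⟨a1, a2, a3, ht.2.1, ht.2.2, a6⟩
  refine le_trans hcard ?_
  have hgeo : ∑ j ∈ range (J + 1), (1 / 2 : ℝ) ^ j ≤ 2 := sum_geometric_two_le _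
  have hsum : ∑ j ∈ range (J + 1),
      (C * N ^ (ε / 2) * (Q₁ * (Q₂ / 2 ^ j) + Q₁ * N ^ (1 / 2 - c))) =
      C * N ^ (ε / 2) * (Q₁ * Q₂ * (∑ j ∈ range (J + 1), (1 / 2 : ℝ) ^ j) +
        ((J : ℝ) + 1) * (Q₁ * N ^ (1 / 2 - c))) := by
    rw [← mul_sum, sum_add_distrib, sum_const, card_range, nsmul_eq_mul, mul_sum]
    push_cast
    congr 2
    refine sum_congr rfl fun j _ => ?_
    rw [one_div, inv_pow]
    ring
  rw [hsum]
  have hNc : 0 ≤ N ^ (1 / 2 - c) := (Real.rpow_pos_of_pos hN0 _).le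
  have hQQ : 0 ≤ Q₁ * Q₂ := by positivity
  have hsplit : N ^ ε = N ^ (ε / 2) * N ^ (ε / 2) := by
    rw [← Real.rpow_add hN0]
    congr 1
    ring
  have e1 : Q₁ * Q₂ * (∑ j ∈ range (J + 1), (1 / 2 : ℝ) ^ j) ≤
      Q₁ * Q₂ * ((2 + 2 / (ε * Real.log 2)) * N ^ (ε / 2)) := by
    refine mul_le_mul_of_nonneg_left ?_ hQQ
    nlinarith
  have e2 : ((J : ℝ) + 1) * (Q₁ * N ^ (1 / 2 - c)) ≤
      ((2 + 2 / (ε * Real.log 2)) * N ^ (ε / 2)) * (Q₁ * N ^ (1 / 2 - c)) :=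
    mul_le_mul_of_nonneg_right hJ (by positivity)
  calc C * N ^ (ε / 2) * (Q₁ * Q₂ * (∑ j ∈ range (J + 1), (1 / 2 : ℝ) ^ j) +
        ((J : ℝ) + 1) * (Q₁ * N ^ (1 / 2 - c)))
      ≤ C * N ^ (ε / 2) * (Q₁ * Q₂ * ((2 + 2 / (ε * Real.log 2)) * N ^ (ε / 2)) +
        ((2 + 2 / (ε * Real.log 2)) * N ^ (ε / 2)) * (Q₁ * N ^ (1 / 2 - c))) :=
        mul_le_mul_of_nonneg_left (add_le_add e1 e2) (by positivity)
    _ = C * (2 + 2 / (ε * Real.log 2)) * N ^ ε * (Q₁ * Q₂ + Q₁ * N ^ (1 / 2 - c)) := by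
        rw [hsplit]
        ring

end Pool.Agent.T5
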